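import Mathlib
import Pool.Agent.Y318.Adm.Stm

set_option autoImplicit false

open Metric Set Filter Topology ComplexConjugate

namespace Pool.Agent.Y516.Adm

open Pool.Agent.Y318.Adm

/-- the involution of the disc exchanging `0` and `a` -/
noncomputable def mo (a z : ℂ) : ℂ := (a - z) / (1 - conj a * z)

theorem nsq_key (a z : ℂ) : Complex.normSq (1 - conj a * z) - Complex.normSq (a - z) =
    (1 - Complex.normSq a) * (1 - Complex.normSq z) := by
  simp only [Complex.normSq_apply, Complex.sub_re, Complex.sub_im, Complex.mul_re, Complex.mul_im,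
    Complex.conj_re, Complex.conj_im, Complex.one_re, Complex.one_im]
  ring

theorem nsq_lt {a : ℂ} (ha : ‖a‖ < 1) : Complex.normSq a < 1 := by
  rw [Complex.normSq_eq_norm_sq]
  have := norm_nonneg a
  nlinarith

theorem den_ne {a z : ℂ} (ha : ‖a‖ < 1) (hz : ‖z‖ < 1) : 1 - conj a * z ≠ 0 := by
  intro h
  have h1 := nsq_key a z
  rw [h, map_zero] at h1
  have h2 := mul_pos (sub_pos.2 (nsq_lt ha)) (sub_pos.2 (nsq_lt hz))
  have h3 := Complex.normSq_nonneg (a - z)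
  linarith

theorem mo_lt {a z : ℂ} (ha : ‖a‖ < 1) (hz : ‖z‖ < 1) : ‖mo a z‖ < 1 := by
  unfold mo
  have hd := den_ne ha hz
  rw [norm_div, div_lt_one (norm_pos_iff.2 hd)]
  have h1 := nsq_key a z
  have h2 := mul_pos (sub_pos.2 (nsq_lt ha)) (sub_pos.2 (nsq_lt hz))
  rw [Complex.normSq_eq_norm_sq, Complex.normSq_eq_norm_sq] at h1
  exact lt_of_pow_lt_pow_left₀ 2 (norm_nonneg _) (by linarith)

theorem mo_mem {a z : ℂ} (ha : a ∈ ball (0 : ℂ) 1) (hz : z ∈ ball (0 : ℂ) 1) :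
    mo a z ∈ ball (0 : ℂ) 1 := by
  rw [mem_ball_zero_iff] at *
  exact mo_lt ha hz

theorem one_sub_ne {a : ℂ} (ha : ‖a‖ < 1) : (1 : ℂ) - conj a * a ≠ 0 := den_ne ha ha

theorem mo_mo {a z : ℂ} (ha : ‖a‖ < 1) (hz : ‖z‖ < 1) : mo a (mo a z) = z := by
  have hd := den_ne ha hz
  have h1 := one_sub_ne ha
  have hd2 := den_ne ha (mo_lt ha hz)
  unfold mo at *
  have e1 : a - (a - z) / (1 - conj a * z) = z * (1 - conj a * a) / (1 - conj a * z) := by
    rw [eq_div_iff hd, sub_mul, div_mul_cancel₀ _ hd]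
    ring
  have e2 : 1 - conj a * ((a - z) / (1 - conj a * z)) = (1 - conj a * a) / (1 - conj a * z) := by
    rw [eq_div_iff hd, sub_mul, mul_assoc, div_mul_cancel₀ _ hd]
    ring
  rw [e1, e2, div_div_div_cancel_right₀ hd, mul_div_assoc, div_self h1, mul_one]

theorem rho_eq (a c : ℂ) : rho a c = ‖mo a c‖ := rfl

theorem mo_self (a : ℂ) : mo a a = 0 := by simp [mo]

theorem mo_zero (a : ℂ) : mo a 0 = a := by simp [mo]

theorem rho_symm (a c : ℂ) : rho a c = rho c a := by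
  unfold rho
  rw [norm_div, norm_div]
  congr 1
  · exact norm_sub_rev _ _
  · rw [← Complex.norm_conj (1 - conj a * c)]
    congr 1
    simp only [map_sub, map_one, map_mul, Complex.conj_conj]
    ring

theorem rho_mo {a z w : ℂ} (ha : ‖a‖ < 1) (hz : ‖z‖ < 1) (hw : ‖w‖ < 1) :
    rho (mo a z) (mo a w) = rho z w := by
  have dz := den_ne ha hz
  have dw := den_ne ha hw
  have dzc : 1 - a * conj z ≠ 0 := by
    intro h
    apply dz
    have := congrArg conj h
    simp only [map_sub, map_one, map_mul, Complex.conj_conj, map_zero] at this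
    exact this
  have d3 := den_ne hz hw
  have h1 := one_sub_ne ha
  have d4 := den_ne (mo_lt ha hz) (mo_lt ha hw)
  have e1 : mo a z - mo a w = (w - z) * (1 - conj a * a) / ((1 - conj a * z) * (1 - conj a * w)) := by
    unfold mo
    rw [div_sub_div _ _ dz dw]
    congr 1
    ring
  have e2 : 1 - conj (mo a z) * mo a w =
      (1 - conj a * a) * (1 - conj z * w) / ((1 - a * conj z) * (1 - conj a * w)) := by
    unfold mo
    simp only [map_div₀, map_sub, map_one, map_mul, Complex.conj_conj]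
    rw [div_mul_div_comm, eq_div_iff (mul_ne_zero dzc dw), sub_mul,
      div_mul_cancel₀ _ (mul_ne_zero dzc dw)]
    ring
  have e3 : (mo a z - mo a w) / (1 - conj (mo a z) * mo a w) =
      -((z - w) / (1 - conj z * w)) * ((1 - a * conj z) / (1 - conj a * z)) := by
    rw [e1, e2, div_div_eq_mul_div, ← neg_div, neg_sub, div_mul_div_comm,
      div_mul_eq_mul_div, div_div, div_eq_div_iff]
    · ring
    · exact mul_ne_zero (mul_ne_zero dz dw) (mul_ne_zero h1 d3)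
    · exact mul_ne_zero d3 dz
  unfold rho
  rw [e3, norm_mul, norm_neg]
  have e4 : ‖(1 - a * conj z) / (1 - conj a * z)‖ = 1 := by
    rw [norm_div, div_eq_one_iff_eq (norm_ne_zero_iff.2 dz), ← Complex.norm_conj (1 - a * conj z)]
    congr 1
    simp only [map_sub, map_one, map_mul, Complex.conj_conj]
  rw [e4, mul_one]

theorem mo_continuousOn {a : ℂ} (ha : ‖a‖ < 1) : ContinuousOn (mo a) (ball 0 1) := by
  unfold mo
  apply ContinuousOn.div
  · fun_prop
  · fun_prop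
  · intro z hz
    rw [mem_ball_zero_iff] at hz
    exact den_ne ha hz

/-- for every point `y` close to `0` there is `x` with `|x| = τ` and `rho x y = τ` -/
theorem exists_circle {τ : ℝ} (h0 : 0 < τ) (h1 : τ < 1) {y : ℂ} (hy : ‖y‖ < τ) :
    ∃ x : ℂ, ‖x‖ = τ ∧ rho x y = τ := by
  by_cases hy0 : y = 0
  · refine ⟨(τ : ℂ), by simp [abs_of_pos h0], ?_⟩
    subst hy0
    simp [rho, abs_of_pos h0]
  have hn : 0 < ‖y‖ := norm_pos_iff.2 hy0
  set A : ℝ := (1 + τ ^ 2) / 2 with hA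
  have hAp : 0 < A := by positivity
  have hA1 : A < 1 := by rw [hA]; nlinarith
  have hB0 : 0 ≤ τ ^ 2 / ‖y‖ ^ 2 - A ^ 2 := by
    rw [sub_nonneg, le_div_iff₀ (by positivity)]
    have : A ^ 2 * ‖y‖ ^ 2 ≤ 1 * τ ^ 2 := by
      apply mul_le_mul
      · nlinarith
      · nlinarith
      · positivity
      · norm_num
    linarith
  obtain ⟨B, hB⟩ : ∃ B : ℝ, B ^ 2 = τ ^ 2 / ‖y‖ ^ 2 - A ^ 2 := ⟨Real.sqrt _, Real.sq_sqrt hB0⟩
  have hAB : (A ^ 2 + B ^ 2) * ‖y‖ ^ 2 = τ ^ 2 := by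
    rw [hB]
    field_simp
    ring
  have hys : Complex.normSq y = ‖y‖ ^ 2 := Complex.normSq_eq_norm_sq y
  set x : ℂ := y * (⟨A, B⟩ : ℂ) with hx
  have hxn : ‖x‖ ^ 2 = τ ^ 2 := by
    rw [← Complex.normSq_eq_norm_sq, hx, Complex.normSq_mul, hys]
    have : Complex.normSq (⟨A, B⟩ : ℂ) = A ^ 2 + B ^ 2 := by
      rw [Complex.normSq_apply]; ring
    rw [this]
    linarith
  have hxτ : ‖x‖ = τ := by
    have := (sq_eq_sq₀ (norm_nonneg x) h0.le).1 hxn
    exact this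
  refine ⟨x, hxτ, ?_⟩
  have hd := den_ne (a := x) (z := y) (by rw [hxτ]; exact h1) (by linarith)
  unfold rho
  rw [norm_div, div_eq_iff (norm_ne_zero_iff.2 hd)]
  have hsq : ‖x - y‖ ^ 2 = (τ * ‖1 - (starRingEnd ℂ) x * y‖) ^ 2 := by
    rw [mul_pow, ← Complex.normSq_eq_norm_sq, ← Complex.normSq_eq_norm_sq]
    have e1 : Complex.normSq (x - y) = Complex.normSq y * ((A - 1) ^ 2 + B ^ 2) := by
      rw [hx]
      simp only [Complex.normSq_apply, Complex.sub_re, Complex.sub_im, Complex.mul_re,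
        Complex.mul_im]
      ring
    have e2 : Complex.normSq (1 - conj x * y) =
        (1 - Complex.normSq y * A) ^ 2 + (Complex.normSq y) ^ 2 * B ^ 2 := by
      rw [hx]
      simp only [Complex.normSq_apply, Complex.sub_re, Complex.sub_im, Complex.mul_re,
        Complex.mul_im, Complex.conj_re, Complex.conj_im, Complex.one_re, Complex.one_im]
      ring
    rw [e1, e2, hys]
    have h3 : ‖y‖ ^ 2 * ((A - 1) ^ 2 + B ^ 2) = τ ^ 2 - 2 * A * ‖y‖ ^ 2 + ‖y‖ ^ 2 := by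
      nlinarith [hAB]
    have h4 : (1 - ‖y‖ ^ 2 * A) ^ 2 + (‖y‖ ^ 2) ^ 2 * B ^ 2 =
        1 - 2 * A * ‖y‖ ^ 2 + ‖y‖ ^ 2 * τ ^ 2 := by
      have : (‖y‖ ^ 2) ^ 2 * B ^ 2 + (‖y‖ ^ 2) ^ 2 * A ^ 2 = ‖y‖ ^ 2 * τ ^ 2 := by
        rw [← hAB]; ring
      nlinarith [this]
    rw [h3, h4, hA]
    ring
  exact (sq_eq_sq₀ (norm_nonneg _) (mul_nonneg h0.le (norm_nonneg _))).1 hsq

theorem rho_lt {a c : ℂ} (ha : ‖a‖ < 1) (hc : ‖c‖ < 1) : rho a c < 1 := mo_lt ha hc

end Pool.Agent.Y516.Adm
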