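import Mathlib
import Pool.Agent.Y318.Adm.Stm
import Pool.Agent.Y516.Adm.Moeb

set_option autoImplicit false

open Metric Set Filter Topology ComplexConjugate

namespace Pool.Agent.Y516.Adm

open Pool.Agent.Y318.Adm

theorem Reach.up {α : ℂ} {t t' : ℝ} (h : Reach α t) (htt : t ≤ t') (h1 : t' < 1) : Reach α t' := by
  obtain ⟨h0, h01, g, ⟨hd, hom⟩, g0, gt⟩ := h
  have ht' : 0 < t' := h0.trans_le htt
  have hmap : ∀ z ∈ ball (0 : ℂ) 1, ((t / t' : ℝ) : ℂ) * z ∈ ball (0 : ℂ) 1 := by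
    intro z hz
    rw [mem_ball_zero_iff] at *
    rw [norm_mul, Complex.norm_real, Real.norm_of_nonneg (by positivity)]
    have : t / t' ≤ 1 := (div_le_one ht').2 htt
    nlinarith [norm_nonneg z]
  refine ⟨ht', h1, fun z => g (((t / t' : ℝ) : ℂ) * z), ⟨?_, ?_⟩, ?_, ?_⟩
  · exact hd.comp (by fun_prop) hmap
  · intro z hz
    exact hom _ (hmap z hz)
  · simp [g0]
  · show g (((t / t' : ℝ) : ℂ) * (t' : ℂ)) = -1
    have : ((t / t' : ℝ) : ℂ) * (t' : ℂ) = (t : ℂ) := by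
      rw [← Complex.ofReal_mul, div_mul_cancel₀ _ ht'.ne']
    rw [this, gt]

/-- `τ` is the infimum of the reachable set of `α` -/
structure Dis (α : ℂ) (τ : ℝ) : Prop where
  pos : 0 < τ
  lt : τ < 1
  above : ∀ t, τ < t → t < 1 → Reach α t
  below : ∀ t, Reach α t → τ ≤ t

theorem exists_dis (hdec : S_DEC) {α : ℂ} (h0 : α ≠ 0) (h1 : α ≠ 1) (h2 : α ≠ -1) {t : ℝ}
    (h : Reach α t) : ∃ τ, Dis α τ := by
  obtain ⟨s, hs0, hs1, hs⟩ := hdec α h0 h1 h2 1 one_pos
  set S : Set ℝ := {t | Reach α t} with hS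
  have hne : S.Nonempty := ⟨t, h⟩
  have hbdd : BddBelow S := ⟨s, fun x hx => (hs x hx).1.le⟩
  refine ⟨sInf S, ?_, ?_, ?_, ?_⟩
  · exact hs0.trans_le (le_csInf hne fun x hx => (hs x hx).1.le)
  · exact (csInf_le hbdd h).trans_lt h.2.1
  · intro t' ht' ht1
    obtain ⟨x, hx, hxt⟩ := exists_lt_of_csInf_lt hne ht'
    exact Reach.up hx hxt.le ht1
  · intro t' ht'
    exact csInf_le hbdd ht'

section main
variable {f : ℂ → ℂ} (hf : DifferentiableOn ℂ f (ball 0 1))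
  (hom : ∀ z ∈ ball (0 : ℂ) 1, f z ≠ 0 ∧ f z ≠ 1 ∧ f z ≠ -1)
  (hsw : ∀ a ∈ ball (0 : ℂ) 1, ∀ c ∈ ball (0 : ℂ) 1, a ≠ c →
    (Reach (f a) (rho a c) ↔ Reach (f c) (rho a c)))

include hf hom hsw in
theorem dis_move (hstab : S_STAB) {a c : ℂ} (ha : a ∈ ball (0 : ℂ) 1) (hc : c ∈ ball (0 : ℂ) 1)
    {τ : ℝ} (hd : Dis (f a) τ) (hac : rho a c = τ) : Dis (f c) τ := by
  have ha' : ‖a‖ < 1 := by rwa [mem_ball_zero_iff] at ha
  have hc' : ‖c‖ < 1 := by rwa [mem_ball_zero_iff] at hc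
  obtain ⟨n0, n1, n2⟩ := hom c hc
  set x := mo a c with hx
  have hxn : ‖x‖ = τ := hac
  have hxc : mo a x = c := mo_mo ha' hc'
  -- the moving point
  have hcont : ContinuousAt (fun q : ℝ => f (mo a ((q : ℂ) * x))) 1 := by
    have h1 : ContinuousAt (fun q : ℝ => (q : ℂ) * x) 1 := by fun_prop
    have hx1 : ((1 : ℝ) : ℂ) * x = x := by simp
    have hxb : x ∈ ball (0 : ℂ) 1 := by rw [mem_ball_zero_iff, hxn]; exact hd.lt
    have h2 : ContinuousAt (mo a) (((1 : ℝ) : ℂ) * x) := by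
      rw [hx1]
      exact (mo_continuousOn ha').continuousAt (isOpen_ball.mem_nhds hxb)
    have h3 : ContinuousAt f (mo a (((1 : ℝ) : ℂ) * x)) := by
      rw [hx1, hxc]
      exact (hf.continuousOn).continuousAt (isOpen_ball.mem_nhds hc)
    exact ContinuousAt.comp (f := fun q : ℝ => mo a ((q : ℂ) * x)) (g := f) h3
      (ContinuousAt.comp (f := fun q : ℝ => (q : ℂ) * x) (g := mo a) h2 h1)
  have hval : f (mo a (((1 : ℝ) : ℂ) * x)) = f c := by
    rw [Complex.ofReal_one, one_mul, hxc]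
  have hnear : ∀ δ > 0, ∀ᶠ q : ℝ in 𝓝 1, ‖f (mo a ((q : ℂ) * x)) - f c‖ < δ := by
    intro δ hδ
    have := Metric.continuousAt_iff'.1 hcont δ hδ
    filter_upwards [this] with q hq
    rwa [hval, dist_eq_norm] at hq
  have hball : ∀ q : ℝ, 0 < q → q * τ < 1 → mo a ((q : ℂ) * x) ∈ ball (0 : ℂ) 1 ∧
      rho a (mo a ((q : ℂ) * x)) = q * τ ∧ a ≠ mo a ((q : ℂ) * x) := by
    intro q hq hq1
    have hn : ‖(q : ℂ) * x‖ = q * τ := by
      rw [norm_mul, Complex.norm_real, Real.norm_of_nonneg hq.le, hxn]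
    have hlt : ‖(q : ℂ) * x‖ < 1 := by rw [hn]; exact hq1
    have hr : rho a (mo a ((q : ℂ) * x)) = q * τ := by
      rw [rho_eq, mo_mo ha' hlt, hn]
    refine ⟨?_, hr, ?_⟩
    · rw [mem_ball_zero_iff]; exact mo_lt ha' hlt
    · intro h
      rw [← h] at hr
      rw [rho_eq, mo_self, norm_zero] at hr
      have := mul_pos hq hd.pos
      linarith
  refine ⟨hd.pos, hd.lt, ?_, ?_⟩
  · intro t ht ht1
    have hτ := hd.pos
    set l : ℝ := (τ + t) / (2 * τ) with hl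
    have hl1 : 1 < l := by rw [hl, lt_div_iff₀ (by positivity)]; linarith
    obtain ⟨δ, hδ, hst⟩ := hstab (f c) n0 n1 n2 l hl1
    -- choose q
    have hlτ : l * τ < t := by
      have : l * τ = (τ + t) / 2 := by rw [hl]; field_simp
      rw [this]; linarith
    have e1 : ∀ᶠ q : ℝ in 𝓝 1, l * (q * τ) < t := by
      have : ContinuousAt (fun q : ℝ => l * (q * τ)) 1 := by fun_prop
      exact this.eventually_lt continuousAt_const (by simpa using hlτ)
    have e2 : ∀ᶠ q : ℝ in 𝓝[>] 1, (l * (q * τ) < t ∧ ‖f (mo a ((q : ℂ) * x)) - f c‖ < δ) ∧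
        1 < q :=
      ((e1.and (hnear δ hδ)).filter_mono nhdsWithin_le_nhds).and self_mem_nhdsWithin
    obtain ⟨q, ⟨hq1, hq2⟩, hq3⟩ := e2.exists
    have hqτ : q * τ < 1 := by
      have : 1 * (q * τ) < l * (q * τ) := by
        apply mul_lt_mul_of_pos_right hl1
        have := hd.pos
        nlinarith
      linarith
    obtain ⟨b1, b2, b3⟩ := hball q (by linarith) hqτ
    have r1 : Reach (f a) (q * τ) := hd.above _ (by nlinarith [hd.pos]) hqτ
    have r2 : Reach (f (mo a ((q : ℂ) * x))) (q * τ) := by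
      have := (hsw a ha _ b1 b3).1 (by rw [b2]; exact r1)
      rwa [b2] at this
    have r3 := hst _ (f c) hq2 (by simpa using hδ) _ r2 (by linarith)
    exact Reach.up r3 hq1.le ht1
  · intro t ht
    by_contra hlt
    push Not at hlt
    have ht0 := ht.1
    set l : ℝ := (τ + t) / (2 * t) with hl
    have hl1 : 1 < l := by rw [hl, lt_div_iff₀ (by positivity)]; linarith
    obtain ⟨δ, hδ, hst⟩ := hstab (f c) n0 n1 n2 l hl1
    have hlτ : l * t < τ := by
      have : l * t = (τ + t) / 2 := by rw [hl]; field_simp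
      rw [this]; linarith
    have e1 : ∀ᶠ q : ℝ in 𝓝 1, l * t < q * τ ∧ 0 < q := by
      have h1 : ContinuousAt (fun q : ℝ => q * τ) 1 := by fun_prop
      have h2 : ContinuousAt (fun q : ℝ => q) 1 := by fun_prop
      exact (continuousAt_const.eventually_lt h1 (by simpa using hlτ)).and
        (continuousAt_const.eventually_lt h2 (by norm_num))
    have e2 : ∀ᶠ q : ℝ in 𝓝[<] 1, ((l * t < q * τ ∧ 0 < q) ∧ ‖f (mo a ((q : ℂ) * x)) - f c‖ < δ) ∧
        q < 1 :=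
      ((e1.and (hnear δ hδ)).filter_mono nhdsWithin_le_nhds).and self_mem_nhdsWithin
    obtain ⟨q, ⟨⟨hq1, hq0⟩, hq2⟩, hq3⟩ := e2.exists
    have hqτ' : q * τ < τ := by nlinarith [hd.pos]
    have hqτ : q * τ < 1 := hqτ'.trans hd.lt
    obtain ⟨b1, b2, b3⟩ := hball q hq0 hqτ
    have r1 := hst (f c) (f (mo a ((q : ℂ) * x))) (by simpa using hδ) hq2 t ht
      (by linarith [hd.lt])
    have r2 := Reach.up r1 hq1.le hqτ
    have r3 : Reach (f a) (q * τ) := by
      have := (hsw a ha _ b1 b3).2 (by rw [b2]; exact r2)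
      rwa [b2] at this
    have := hd.below _ r3
    linarith

include hf hom hsw in
theorem dis_near (hstab : S_STAB) {a c : ℂ} (ha : a ∈ ball (0 : ℂ) 1) (hc : c ∈ ball (0 : ℂ) 1)
    {τ : ℝ} (hd : Dis (f a) τ) (hac : rho a c < τ) : Dis (f c) τ := by
  have ha' : ‖a‖ < 1 := by rwa [mem_ball_zero_iff] at ha
  have hc' : ‖c‖ < 1 := by rwa [mem_ball_zero_iff] at hc
  obtain ⟨x, hx1, hx2⟩ := exists_circle hd.pos hd.lt (y := mo a c) hac
  have hxl : ‖x‖ < 1 := by rw [hx1]; exact hd.lt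
  have hb : mo a x ∈ ball (0 : ℂ) 1 := by rw [mem_ball_zero_iff]; exact mo_lt ha' hxl
  have h1 : Dis (f (mo a x)) τ := dis_move hf hom hsw hstab ha hb hd (by
    rw [rho_eq, mo_mo ha' hxl, hx1])
  refine dis_move hf hom hsw hstab hb hc h1 ?_
  have : mo a (mo a c) = c := mo_mo ha' hc'
  rw [← this, rho_mo ha' hxl (mo_lt ha' hc'), hx2]

end main

/-- the rigidity argument -/
theorem swap (hstab : S_STAB) (hdec : S_DEC) (hslit : S_SLIT) : S_SWAP := by
  intro f hf hom hsw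
  have han : AnalyticOnNhd ℂ f (ball 0 1) := hf.analyticOnNhd isOpen_ball
  have hpre : IsPreconnected (ball (0 : ℂ) 1) := (convex_ball _ _).isPreconnected
  have h0 : (0 : ℂ) ∈ ball (0 : ℂ) 1 := by simp
  rcases han.is_constant_or_isOpen hpre with ⟨w, hw⟩ | hopen
  · intro z hz
    rw [hw z hz, hw 0 h0]
  exfalso
  -- a point with value off the half-line
  obtain ⟨a, ha, hav⟩ : ∃ a ∈ ball (0 : ℂ) 1, ¬ ((f a).im = 0 ∧ 0 ≤ (f a).re) := by
    have ho := hopen _ subset_rfl isOpen_ball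
    obtain ⟨ε, hε, hb⟩ := Metric.isOpen_iff.1 ho (f 0) ⟨0, h0, rfl⟩
    by_cases him : (f 0).im = 0
    · have : f 0 + ((ε / 2 : ℝ) : ℂ) * Complex.I ∈ f '' ball 0 1 := by
        apply hb
        rw [mem_ball, dist_eq_norm, add_sub_cancel_left, norm_mul, Complex.norm_I, mul_one,
          Complex.norm_real, Real.norm_of_nonneg (by positivity)]
        linarith
      obtain ⟨a, ha, hfa⟩ := this
      refine ⟨a, ha, ?_⟩
      rintro ⟨h1, -⟩
      rw [hfa, Complex.add_im, him] at h1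
      simp at h1
      linarith
    · exact ⟨0, h0, fun h => him h.1⟩
  have ha' : ‖a‖ < 1 := by rwa [mem_ball_zero_iff] at ha
  obtain ⟨n0, n1, n2⟩ := hom a ha
  obtain ⟨t0, ht0⟩ := hslit (f a) n2 hav
  obtain ⟨τ, hd⟩ := exists_dis hdec n0 n1 n2 ht0
  -- the neighbourhood
  have hNo : IsOpen (ball (0 : ℂ) 1 ∩ {c | rho a c < τ}) := by
    have hc : ContinuousOn (fun c => rho a c) (ball 0 1) := by
      exact (mo_continuousOn ha').norm
    exact hc.isOpen_inter_preimage isOpen_ball isOpen_Iio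
  have haN : a ∈ ball (0 : ℂ) 1 ∩ {c | rho a c < τ} := by
    refine ⟨ha, ?_⟩
    show rho a a < τ
    rw [rho_eq, mo_self, norm_zero]
    exact hd.pos
  have ho := hopen _ inter_subset_left hNo
  obtain ⟨η, hη, hb⟩ := Metric.isOpen_iff.1 ho (f a) ⟨a, haN, rfl⟩
  obtain ⟨s, hs0, hs1, hs⟩ := hdec (f a) n0 n1 n2 η hη
  have hτ0 := hd.pos
  have hτ1 := hd.lt
  set m : ℝ := (τ + s) / (1 + τ * s) with hm
  have hden : 0 < 1 + τ * s := by positivity
  have hm1 : m < 1 := by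
    rw [hm, div_lt_one hden]
    nlinarith
  have hτm : τ < m := by
    rw [hm, lt_div_iff₀ hden]
    nlinarith [mul_pos hs0 (mul_pos hτ0 hτ0), mul_pos hτ0 hs0, mul_lt_mul_of_pos_left hτ1 hτ0]
  set t : ℝ := (τ + m) / 2 with ht
  have htτ : τ < t := by rw [ht]; linarith
  have htm : t < m := by rw [ht]; linarith
  have ht1 : t < 1 := htm.trans hm1
  obtain ⟨-, β, hβ, hr⟩ := hs t (hd.above t htτ ht1)
  obtain ⟨c, ⟨hc, hcτ⟩, hfc⟩ := hb (show β ∈ ball (f a) η by rw [mem_ball, dist_eq_norm]; exact hβ)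
  have hdc := dis_near hf hom hsw hstab ha hc hd hcτ
  rw [hfc] at hdc
  have h1 := hdc.below _ hr
  have h2 : 0 < 1 - t * s := by nlinarith
  rw [le_div_iff₀ h2] at h1
  have h3 : t * (1 + τ * s) < τ + s := by
    rw [hm, lt_div_iff₀ hden] at htm
    exact htm
  nlinarith

end Pool.Agent.Y516.Adm
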