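import Mathlib
import Pool.Agent.Y318.Adm.Stm
import Pool.Agent.Y516.Adm.Moeb

set_option autoImplicit false

open Metric Set Filter Topology ComplexConjugate InnerProductSpace

namespace Pool.Agent.Y516.Adm

open Pool.Agent.Y318.Adm

theorem harm {G : ℂ → ℂ} (hG : DifferentiableOn ℂ G (ball 0 1))
    (h1 : ∀ x ∈ ball (0 : ℂ) 1, 1 ≤ ‖G x‖) :
    HarmonicOnNhd (fun z => Real.log ‖G z‖) (ball (0 : ℂ) 1) := by
  intro z hz
  have ha : AnalyticAt ℂ G z := hG.analyticOnNhd isOpen_ball z hz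
  apply ha.harmonicAt_log_norm
  intro h
  have := h1 z hz
  rw [h, norm_zero] at this
  linarith

/-- Harnack inequality for `log |G|`, `|G| ≥ 1` -/
theorem harnack {G : ℂ → ℂ} (hG : DifferentiableOn ℂ G (ball 0 1))
    (h1 : ∀ x ∈ ball (0 : ℂ) 1, 1 ≤ ‖G x‖) {R ρ : ℝ} (h0 : 0 ≤ ρ) (hρ : ρ < R) (hR : R < 1)
    {y : ℂ} (hy : ‖y‖ ≤ ρ) :
    Real.log ‖G y‖ ≤ (R + ρ) / (R - ρ) * Real.log ‖G 0‖ := by
  set h : ℂ → ℝ := fun z => Real.log ‖G z‖ with hh
  have hR0 : 0 < R := by linarith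
  have hsub : closedBall (0 : ℂ) R ⊆ ball 0 1 := closedBall_subset_ball hR
  have hharm : HarmonicOnNhd h (closedBall (0 : ℂ) R) := (harm hG h1).mono hsub
  have hyb : y ∈ ball (0 : ℂ) R := by rw [mem_ball_zero_iff]; linarith
  have hp := hharm.circleAverage_re_herglotzRieszKernel_smul hyb
  have habs : |R| = R := abs_of_pos hR0
  have hm : Real.circleAverage h 0 R = h 0 := by
    apply InnerProductSpace.HarmonicOnNhd.circleAverage_eq
    rw [habs]; exact hharm
  have hcont : ContinuousOn h (closedBall (0 : ℂ) R) := hharm.continuousOn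
  have hcs : ContinuousOn h (sphere (0 : ℂ) |R|) := by
    rw [habs]; exact hcont.mono sphere_subset_closedBall
  have hi2 : CircleIntegrable (fun z => (R + ρ) / (R - ρ) * h z) 0 R :=
    (continuousOn_const.mul hcs).circleIntegrable'
  have hi1 : CircleIntegrable ((Complex.re ∘ herglotzRieszKernel 0 y) • h) 0 R := by
    apply ContinuousOn.circleIntegrable'
    apply ContinuousOn.smul _ hcs
    exact Complex.continuous_re.comp_continuousOn (continuousOn_herglotzRieszKernel_sphere hyb)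
  have key : Real.circleAverage ((Complex.re ∘ herglotzRieszKernel 0 y) • h) 0 R ≤
      Real.circleAverage (fun z => (R + ρ) / (R - ρ) * h z) 0 R := by
    apply Real.circleAverage_mono hi1 hi2
    intro z hz
    rw [habs] at hz
    have hz1 : z ∈ ball (0 : ℂ) 1 := hsub (sphere_subset_closedBall hz)
    have hnn : 0 ≤ h z := Real.log_nonneg (h1 z hz1)
    show Complex.re (herglotzRieszKernel 0 y z) * h z ≤ _
    apply mul_le_mul_of_nonneg_right _ hnn
    have := re_herglotzRieszKernel_le hz hyb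
    rw [← herglotzRieszKernel_def] at this
    refine this.trans ?_
    rw [sub_zero]
    apply div_le_div₀
    · linarith
    · linarith
    · linarith
    · linarith
  rw [hp] at key
  have e : Real.circleAverage (fun z => (R + ρ) / (R - ρ) * h z) 0 R = (R + ρ) / (R - ρ) * h 0 := by
    rw [← hm]
    have := Real.circleAverage_fun_smul (a := (R + ρ) / (R - ρ)) (f := h) (c := 0) (R := R)
    simpa only [smul_eq_mul] using this
  rw [e] at key
  exact key

theorem growth {P : ℂ → ℂ} {k : ℂ} (hP : DifferentiableOn ℂ P (ball 0 1))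
    (hk : ∀ x ∈ ball (0 : ℂ) 1, P ((1 + x) / 2) = k * P x) :
    ∃ C₁ C₂ : ℝ, 0 ≤ C₁ ∧ 0 ≤ C₂ ∧ ∀ y : ℝ, 0 ≤ y → y < 1 → 1 ≤ ‖P (y : ℂ)‖ →
      Real.log ‖P (y : ℂ)‖ ≤ C₁ + C₂ * Real.log (1 - y)⁻¹ := by
  have hc : ContinuousOn (fun y : ℝ => ‖P (y : ℂ)‖) (Icc 0 (1 / 2)) := by
    apply ContinuousOn.norm
    apply hP.continuousOn.comp (by fun_prop)
    intro y hy
    rw [mem_ball_zero_iff, Complex.norm_real, Real.norm_of_nonneg hy.1]
    linarith [hy.2]
  obtain ⟨M0, hM0⟩ := isCompact_Icc.bddAbove_image hc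
  set M : ℝ := max 1 M0 with hM
  have hM1 : 1 ≤ M := le_max_left _ _
  set L : ℝ := max ‖k‖ 1 with hL
  have hL1 : 1 ≤ L := le_max_right _ _
  have hind : ∀ n : ℕ, ∀ y : ℝ, 0 ≤ y → y ≤ 1 - (1 / 2) ^ (n + 1) → ‖P (y : ℂ)‖ ≤ M * L ^ n := by
    intro n
    induction n with
    | zero =>
      intro y hy0 hy1
      have : ‖P (y : ℂ)‖ ≤ M0 := hM0 ⟨y, ⟨hy0, by norm_num at hy1; linarith⟩, rfl⟩
      rw [pow_zero, mul_one]
      exact this.trans (le_max_right _ _)
    | succ n ih =>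
      intro y hy0 hy1
      by_cases hy2 : y ≤ 1 / 2
      · have : ‖P (y : ℂ)‖ ≤ M0 := hM0 ⟨y, ⟨hy0, hy2⟩, rfl⟩
        have h2 : M * 1 ≤ M * L ^ (n + 1) :=
          mul_le_mul_of_nonneg_left (one_le_pow₀ hL1) (by linarith)
        exact this.trans ((le_max_right _ _).trans (by linarith))
      · push Not at hy2
        have hx0 : 0 ≤ 2 * y - 1 := by linarith
        have hpow : (1 / 2 : ℝ) ^ (n + 1 + 1) = (1 / 2) ^ (n + 1) / 2 := by ring
        have hx1 : 2 * y - 1 ≤ 1 - (1 / 2) ^ (n + 1) := by rw [hpow] at hy1; linarith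
        have hpos : (0 : ℝ) < (1 / 2) ^ (n + 1) := by positivity
        have hxb : ((2 * y - 1 : ℝ) : ℂ) ∈ ball (0 : ℂ) 1 := by
          rw [mem_ball_zero_iff, Complex.norm_real, Real.norm_of_nonneg hx0]
          linarith
        have e := hk _ hxb
        have e2 : (1 + ((2 * y - 1 : ℝ) : ℂ)) / 2 = (y : ℂ) := by push_cast; ring
        rw [e2] at e
        rw [e, norm_mul, pow_succ]
        have h3 := ih _ hx0 hx1
        calc ‖k‖ * ‖P ((2 * y - 1 : ℝ) : ℂ)‖ ≤ L * (M * L ^ n) :=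
              mul_le_mul (le_max_left _ _) h3 (norm_nonneg _) (by linarith)
          _ = M * (L ^ n * L) := by ring
  refine ⟨Real.log M, Real.log L / Real.log 2, Real.log_nonneg hM1,
    div_nonneg (Real.log_nonneg hL1) (Real.log_nonneg (by norm_num)), ?_⟩
  intro y hy0 hy1 hPy
  have hy : 0 < 1 - y := by linarith
  set w : ℝ := Real.log (1 - y)⁻¹ / Real.log 2 with hw
  have hl2 : 0 < Real.log 2 := Real.log_pos (by norm_num)
  have hw0 : 0 ≤ w := div_nonneg (Real.log_nonneg ((one_le_inv₀ hy).2 (by linarith))) hl2.le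
  set n := ⌊w⌋₊ with hn
  have hn1 : (n : ℝ) ≤ w := Nat.floor_le hw0
  have hn2 : w < n + 1 := Nat.lt_floor_add_one w
  have h4 : (1 / 2 : ℝ) ^ (n + 1) ≤ 1 - y := by
    have h5 : Real.log (1 - y)⁻¹ < (n + 1) * Real.log 2 := by
      rw [hw, div_lt_iff₀ hl2] at hn2
      exact hn2
    have h6 : (1 - y)⁻¹ < 2 ^ (n + 1) := by
      rw [← Real.log_lt_log_iff (by positivity) (by positivity), Real.log_pow]
      push_cast
      exact h5
    rw [one_div, inv_pow]
    rw [inv_le_comm₀ (by positivity) hy]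
    exact h6.le
  have h7 := hind n y hy0 (by linarith)
  have h8 : Real.log ‖P (y : ℂ)‖ ≤ Real.log (M * L ^ n) :=
    Real.log_le_log (by linarith) h7
  rw [Real.log_mul (by positivity) (by positivity), Real.log_pow] at h8
  have h9 : (n : ℝ) * Real.log L ≤ w * Real.log L :=
    mul_le_mul_of_nonneg_right hn1 (Real.log_nonneg hL1)
  have h10 : w * Real.log L = Real.log L / Real.log 2 * Real.log (1 - y)⁻¹ := by
    rw [hw]; ring
  linarith

/-- boundary behaviour of self-maps of the disc -/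
theorem self_map_bound {s : ℂ → ℂ} (hs : DifferentiableOn ℂ s (ball 0 1))
    (hm : MapsTo s (ball 0 1) (ball 0 1)) :
    ∀ z ∈ ball (0 : ℂ) 1,
      ‖s z‖ ≤ 1 - (1 - ‖s 0‖) / (1 + ‖s 0‖) / 2 * (1 - ‖z‖) := by
  intro z hz
  have h0 : (0 : ℂ) ∈ ball (0 : ℂ) 1 := by simp
  set a := s 0 with ha
  have ha1 : ‖a‖ < 1 := by simpa using hm h0
  have hz1 : ‖z‖ < 1 := by simpa using hz
  have hsz : ‖s z‖ < 1 := by simpa using hm hz
  set φ : ℂ → ℂ := fun z => mo a (s z) with hφ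
  have hφd : DifferentiableOn ℂ φ (ball 0 1) := by
    have : ∀ z ∈ ball (0 : ℂ) 1, 1 - conj a * s z ≠ 0 := fun z hz =>
      den_ne ha1 (by simpa using hm hz)
    intro z hz
    exact ((differentiableWithinAt_const a).sub (hs z hz)).div
      ((differentiableWithinAt_const 1).sub ((differentiableWithinAt_const _).mul (hs z hz)))
      (this z hz)
  have hφm : MapsTo φ (ball 0 1) (ball 0 1) := by
    intro z hz
    rw [mem_ball_zero_iff]
    exact mo_lt ha1 (by simpa using hm hz)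
  have hφ0 : φ 0 = 0 := mo_self a
  have hsch : ‖φ z‖ ≤ ‖z‖ := Complex.norm_le_norm_of_mapsTo_ball hφd (hφm.mono_right ball_subset_closedBall) hφ0 hz1
  have hφz : ‖φ z‖ < 1 := lt_of_le_of_lt hsch hz1
  have hback : mo a (φ z) = s z := mo_mo ha1 hsz
  -- the identity
  have hid := nsq_key a (φ z)
  have hd := den_ne ha1 hφz
  have hd2 : ‖1 - conj a * φ z‖ ≤ 1 + ‖a‖ := by
    calc ‖1 - conj a * φ z‖ ≤ ‖(1 : ℂ)‖ + ‖conj a * φ z‖ := norm_sub_le _ _
      _ = 1 + ‖a‖ * ‖φ z‖ := by rw [norm_one, norm_mul, Complex.norm_conj]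
      _ ≤ 1 + ‖a‖ := by nlinarith [norm_nonneg a, norm_nonneg (φ z)]
  have e1 : ‖s z‖ * ‖1 - conj a * φ z‖ = ‖a - φ z‖ := by
    rw [← hback]
    unfold mo
    rw [norm_div, div_mul_cancel₀ _ (norm_ne_zero_iff.2 hd)]
  simp only [Complex.normSq_eq_norm_sq] at hid
  have hdp : 0 < ‖1 - conj a * φ z‖ := norm_pos_iff.2 hd
  set d := ‖1 - conj a * φ z‖ with hdd
  have e2 : (1 - ‖s z‖ ^ 2) * d ^ 2 = (1 - ‖a‖ ^ 2) * (1 - ‖φ z‖ ^ 2) := by
    rw [← hid, ← e1]; ring
  have hA := norm_nonneg a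
  have hZ := norm_nonneg z
  have hS := norm_nonneg (s z)
  have e3 : (1 - ‖a‖ ^ 2) * (1 - ‖z‖ ^ 2) ≤ (1 - ‖s z‖ ^ 2) * (1 + ‖a‖) ^ 2 := by
    calc (1 - ‖a‖ ^ 2) * (1 - ‖z‖ ^ 2) ≤ (1 - ‖a‖ ^ 2) * (1 - ‖φ z‖ ^ 2) := by
          apply mul_le_mul_of_nonneg_left
          · have := pow_le_pow_left₀ (norm_nonneg _) hsch 2
            linarith
          · nlinarith
      _ = (1 - ‖s z‖ ^ 2) * d ^ 2 := e2.symm
      _ ≤ (1 - ‖s z‖ ^ 2) * (1 + ‖a‖) ^ 2 := by
          apply mul_le_mul_of_nonneg_left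
          · exact pow_le_pow_left₀ hdp.le hd2 2
          · nlinarith
  have e4 : (1 - ‖a‖) * (1 - ‖z‖ ^ 2) ≤ (1 - ‖s z‖ ^ 2) * (1 + ‖a‖) := by
    have : (1 + ‖a‖) * ((1 - ‖a‖) * (1 - ‖z‖ ^ 2)) ≤
        (1 + ‖a‖) * ((1 - ‖s z‖ ^ 2) * (1 + ‖a‖)) := by nlinarith
    exact le_of_mul_le_mul_left this (by linarith)
  have e5 : (1 - ‖a‖) * (1 - ‖z‖) ≤ 2 * (1 - ‖s z‖) * (1 + ‖a‖) := by
    have h1 : (1 - ‖a‖) * (1 - ‖z‖) ≤ (1 - ‖a‖) * (1 - ‖z‖ ^ 2) := by
      apply mul_le_mul_of_nonneg_left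
      · nlinarith
      · linarith
    have h2 : (1 - ‖s z‖ ^ 2) * (1 + ‖a‖) ≤ 2 * (1 - ‖s z‖) * (1 + ‖a‖) := by
      apply mul_le_mul_of_nonneg_right
      · nlinarith
      · linarith
    linarith
  have hA1 : 0 < 1 + ‖a‖ := by linarith
  have e6 : (1 - ‖a‖) / (1 + ‖a‖) / 2 * (1 - ‖z‖) ≤ 1 - ‖s z‖ := by
    rw [div_div, div_mul_eq_mul_div, div_le_iff₀ (by positivity)]
    linarith
  linarith

theorem TT_eq (f : ℂ → ℂ) (r : ℝ) :
    TT f r = Real.circleAverage (fun z => Real.posLog ‖f z‖) 0 r := by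
  unfold TT Real.circleAverage
  rw [smul_eq_mul]
  congr 1
  apply intervalIntegral.integral_congr
  intro θ _
  simp only [circleMap_zero]

theorem up : S_UP := by
  intro f s t hf ⟨hs, ht, hsm, htm, hts, hst⟩ ⟨P, k, hP, hk, hmaj⟩
  obtain ⟨C₁, C₂, hC1, hC2, hgr⟩ := growth hP hk
  set A := ‖s 0‖ with hA
  have h0 : (0 : ℂ) ∈ ball (0 : ℂ) 1 := by simp
  have hA1 : A < 1 := by simpa using hsm h0
  have hA0 : 0 ≤ A := norm_nonneg _
  set κ : ℝ := (1 - A) / (1 + A) with hκ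
  have hκ0 : 0 < κ := div_pos (by linarith) (by linarith)
  have hκ1 : κ ≤ 1 := by rw [hκ, div_le_one (by linarith)]; linarith
  set c : ℝ := κ / 2 with hc
  have hc0 : 0 < c := by positivity
  have hc1 : c < 1 := by rw [hc]; linarith
  have hsb := self_map_bound hs hsm
  set ρ : ℝ := (1 + A) / 2 with hρ
  have hρ0 : 0 ≤ ρ := by positivity
  have hρ1 : ρ < 1 := by rw [hρ]; linarith
  set R : ℝ := (1 + ρ) / 2 with hR
  have hρR : ρ < R := by rw [hR]; linarith
  have hR1 : R < 1 := by rw [hR]; linarith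
  set H : ℝ := (R + ρ) / (R - ρ) with hH
  have hH0 : 0 ≤ H := div_nonneg (by linarith) (by linarith)
  -- the main estimate
  have main : ∀ r : ℝ, 0 < r → r < 1 →
      TT f r ≤ H * (C₁ + C₂ * (Real.log c⁻¹ + Real.log (1 - r)⁻¹)) := by
    intro r hr0 hr1
    set x : ℝ := 1 - c * (1 - r) / 2 with hx
    have hcr0 : 0 < c * (1 - r) := mul_pos hc0 (by linarith)
    have hcr1 : c * (1 - r) < 1 := by nlinarith
    have hx0 : 0 < x := by rw [hx]; linarith
    have hx1 : x < 1 := by rw [hx]; linarith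
    have hw : ((2 * x - 1 : ℝ) : ℂ) ∈ ball (0 : ℂ) 1 := by
      rw [mem_ball_zero_iff, Complex.norm_real, Real.norm_of_nonneg (by rw [hx]; linarith)]
      linarith
    obtain ⟨G, hG, hG1, hG0⟩ := hmaj _ hw
    have e1 : (1 + ((2 * x - 1 : ℝ) : ℂ)) / 2 = (x : ℂ) := by push_cast; ring
    rw [e1] at hG1
    have hGn : ∀ x ∈ ball (0 : ℂ) 1, 1 ≤ ‖G x‖ := fun y hy => (hG1 y hy).1
    set r' : ℝ := (1 + r) / 2 with hr'
    have hrr : r < r' := by rw [hr']; linarith
    have hr'1 : r' < 1 := by rw [hr']; linarith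
    have hin : ∀ z ∈ ball (0 : ℂ) r', s z / (x : ℂ) ∈ ball (0 : ℂ) 1 := by
      intro z hz
      rw [mem_ball_zero_iff] at *
      have hz1 : z ∈ ball (0 : ℂ) 1 := by rw [mem_ball_zero_iff]; linarith
      have := hsb z hz1
      rw [norm_div, Complex.norm_real, Real.norm_of_nonneg hx0.le, div_lt_one hx0]
      have h3 : c * (1 - r) / 2 < c * (1 - ‖z‖) := by
        have : (1 - r) / 2 < 1 - ‖z‖ := by rw [hr'] at hz; linarith
        nlinarith
      rw [hx]
      have h4 : (1 - A) / (1 + A) / 2 = c := rfl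
      rw [h4] at this
      linarith
    set g : ℂ → ℂ := fun z => G (s z / (x : ℂ)) with hg
    have hgd : DifferentiableOn ℂ g (ball 0 r') := by
      apply hG.comp
      · intro z hz
        have hz1 : z ∈ ball (0 : ℂ) 1 := by
          rw [mem_ball_zero_iff] at *; linarith
        exact ((hs z hz1).mono (ball_subset_ball hr'1.le)).div_const _
      · exact hin
    have hgn : ∀ z ∈ ball (0 : ℂ) r', 1 ≤ ‖g z‖ := fun z hz => hGn _ (hin z hz)
    have hgh : HarmonicOnNhd (fun z => Real.log ‖g z‖) (closedBall (0 : ℂ) |r|) := by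
      intro z hz
      rw [abs_of_pos hr0] at hz
      have hz' : z ∈ ball (0 : ℂ) r' := closedBall_subset_ball hrr hz
      apply (hgd.analyticOnNhd isOpen_ball z hz').harmonicAt_log_norm
      intro h
      have := hgn z hz'
      rw [h, norm_zero] at this
      linarith
    have hle : ∀ z ∈ ball (0 : ℂ) r', Real.posLog ‖f z‖ ≤ Real.log ‖g z‖ := by
      intro z hz
      have hz1 : z ∈ ball (0 : ℂ) 1 := by rw [mem_ball_zero_iff] at *; linarith
      have h3 := (hG1 _ (hin z hz)).2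
      have h4 : (x : ℂ) * (s z / (x : ℂ)) = s z := by
        rw [mul_div_cancel₀]
        exact_mod_cast hx0.ne'
      simp only [h4, hts z hz1] at h3
      calc Real.posLog ‖f z‖ ≤ Real.posLog ‖g z‖ := Real.posLog_le_posLog (norm_nonneg _) h3
        _ = Real.log ‖g z‖ := Real.posLog_eq_log (by
            rw [abs_norm]; exact hgn z hz)
    have hgc : ContinuousOn (fun z => Real.log ‖g z‖) (sphere (0 : ℂ) |r|) :=
      hgh.continuousOn.mono sphere_subset_closedBall
    have hfc : ContinuousOn (fun z => Real.posLog ‖f z‖) (sphere (0 : ℂ) |r|) := by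
      have : ContinuousOn f (sphere (0 : ℂ) |r|) := by
        apply hf.continuousOn.mono
        rw [abs_of_pos hr0]
        exact sphere_subset_closedBall.trans (closedBall_subset_ball hr1)
      exact Real.continuous_posLog.comp_continuousOn this.norm
    have h5 : TT f r ≤ Real.log ‖g 0‖ := by
      rw [TT_eq, ← hgh.circleAverage_eq]
      apply Real.circleAverage_mono hfc.circleIntegrable' hgc.circleIntegrable'
      intro z hz
      rw [abs_of_pos hr0] at hz
      exact hle z ((sphere_subset_closedBall.trans (closedBall_subset_ball hrr)) hz)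
    have hs0x : ‖s 0 / (x : ℂ)‖ ≤ ρ := by
      rw [norm_div, Complex.norm_real, Real.norm_of_nonneg hx0.le, div_le_iff₀ hx0]
      have h6 : 1 - κ ≤ x := by
        rw [hx]
        have : c * (1 - r) / 2 ≤ κ := by
          have : c * (1 - r) ≤ c * 1 := mul_le_mul_of_nonneg_left (by linarith) hc0.le
          rw [hc] at *
          linarith
        linarith
      have h7 : ρ * (1 - κ) = A := by
        rw [hρ, hκ]
        field_simp
        ring
      calc ‖s 0‖ = ρ * (1 - κ) := h7.symm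
        _ ≤ ρ * x := mul_le_mul_of_nonneg_left h6 hρ0
    have h8 : Real.log ‖g 0‖ ≤ H * Real.log ‖G 0‖ := harnack hG hGn hρ0 hρR hR1 hs0x
    have hPw : 1 ≤ ‖P ((2 * x - 1 : ℝ) : ℂ)‖ := (hGn 0 h0).trans hG0
    have h9 : Real.log ‖G 0‖ ≤ Real.log ‖P ((2 * x - 1 : ℝ) : ℂ)‖ :=
      Real.log_le_log (by linarith [hGn 0 h0]) hG0
    have h10 := hgr (2 * x - 1) (by rw [hx]; linarith) (by linarith) hPw
    have h11 : (1 - (2 * x - 1))⁻¹ = c⁻¹ * (1 - r)⁻¹ := by
      rw [hx, ← mul_inv]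
      congr 1
      ring
    rw [h11, Real.log_mul (by positivity) (by
      have : 0 < 1 - r := by linarith
      positivity)] at h10
    calc TT f r ≤ Real.log ‖g 0‖ := h5
      _ ≤ H * Real.log ‖G 0‖ := h8
      _ ≤ H * (C₁ + C₂ * (Real.log c⁻¹ + Real.log (1 - r)⁻¹)) :=
        mul_le_mul_of_nonneg_left (h9.trans h10) hH0
  -- conclusion
  have hlc : 0 ≤ Real.log c⁻¹ := Real.log_nonneg ((one_le_inv₀ hc0).2 hc1.le)
  apply Asymptotics.IsBigO.of_bound (H * (C₁ + C₂ * (Real.log c⁻¹ + 1)))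
  have hev : ∀ᶠ r : ℝ in 𝓝[<] 1, 1 - Real.exp (-1) < r :=
    nhdsWithin_le_nhds (lt_mem_nhds (by
      have := Real.exp_pos (-1)
      linarith))
  filter_upwards [hev, self_mem_nhdsWithin] with r hr1 hr2
  have hr2' : r < 1 := hr2
  have hexp : Real.exp (-1) < 1 := by
    rw [Real.exp_lt_one_iff]; norm_num
  have hr0 : 0 < r := by linarith
  have hlog : 1 ≤ Real.log (1 - r)⁻¹ := by
    rw [Real.log_inv, le_neg]
    have h12 : 1 - r ≤ Real.exp (-1) := by linarith
    calc Real.log (1 - r) ≤ Real.log (Real.exp (-1)) := Real.log_le_log (by linarith) h12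
      _ = -1 := Real.log_exp _
  have hTT : 0 ≤ TT f r := by
    rw [TT_eq]
    apply Real.circleAverage_nonneg_of_nonneg
    intro z _
    exact Real.posLog_nonneg
  rw [Real.norm_of_nonneg hTT, Real.norm_of_nonneg (by linarith)]
  refine (main r hr0 hr2').trans ?_
  rw [mul_assoc]
  apply mul_le_mul_of_nonneg_left _ hH0
  have h13 : C₁ ≤ C₁ * Real.log (1 - r)⁻¹ := le_mul_of_one_le_right hC1 hlog
  have h14 : Real.log c⁻¹ ≤ Real.log c⁻¹ * Real.log (1 - r)⁻¹ := le_mul_of_one_le_right hlc hlog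
  have h15 : C₂ * (Real.log c⁻¹ + Real.log (1 - r)⁻¹) ≤
      C₂ * ((Real.log c⁻¹ + 1) * Real.log (1 - r)⁻¹) := by
    apply mul_le_mul_of_nonneg_left _ hC2
    linarith
  linarith

end Pool.Agent.Y516.Adm
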